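import Pool.Agent.H66.FA.T

/-!
# Euler relations for half the square of a Minkowski norm
-/

set_option autoImplicit false

open Matrix

namespace Pool.Agent.H14.FA

open Pool.Agent.H63.Fins Pool.Agent.H66.FA MeasureTheory Filter Topology

variable {n : ℕ} {L : V n → ℝ}

theorem isOpen_ne : IsOpen {y : V n | y ≠ 0} := isOpen_ne_fun continuous_id continuous_const

theorem cdAt (hL : IsML L) {y : V n} (hy : y ≠ 0) : ContDiffAt ℝ (⊤ : ℕ∞) L y :=
  hL.smooth.contDiffAt (isOpen_ne.mem_nhds hy)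

theorem diffAt (hL : IsML L) {y : V n} (hy : y ≠ 0) : DifferentiableAt ℝ L y :=
  (cdAt hL hy).differentiableAt (by simp)

theorem cdAt1 (hL : IsML L) {y : V n} (hy : y ≠ 0) : ContDiffAt ℝ (⊤ : ℕ∞) (fderiv ℝ L) y :=
  (cdAt hL hy).fderiv_right (by simp)

theorem diffAt1 (hL : IsML L) {y : V n} (hy : y ≠ 0) : DifferentiableAt ℝ (fderiv ℝ L) y :=
  (cdAt1 hL hy).differentiableAt (by simp)

theorem fd_homog (hL : IsML L) {y : V n} (hy : y ≠ 0) {c : ℝ} (hc : 0 < c) :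
    fderiv ℝ L (c • y) = c • fderiv ℝ L y := by
  have h1 : (fun z => L (c • z)) = fun z => c ^ 2 • L z := by
    funext z
    rw [hL.homog z c hc, smul_eq_mul]
  have h2 : fderiv ℝ (fun z => L (c • z)) y = c • fderiv ℝ L (c • y) := fderiv_comp_smul _
  have h3 : fderiv ℝ (fun z => c ^ 2 • L z) y = c ^ 2 • fderiv ℝ L y :=
    fderiv_fun_const_smul (diffAt hL hy) _
  rw [h1, h3] at h2
  have h4 : c • fderiv ℝ L (c • y) = c • (c • fderiv ℝ L y) := by
    rw [← h2, smul_smul, sq]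
  exact smul_right_injective _ hc.ne' h4

theorem fd2_homog (hL : IsML L) {y : V n} (hy : y ≠ 0) {c : ℝ} (hc : 0 < c) :
    fderiv ℝ (fderiv ℝ L) (c • y) = fderiv ℝ (fderiv ℝ L) y := by
  have h1 : (fun z => fderiv ℝ L (c • z)) =ᶠ[𝓝 y] fun z => c • fderiv ℝ L z := by
    filter_upwards [isOpen_ne.mem_nhds hy] with z hz
    exact fd_homog hL hz hc
  have h2 : fderiv ℝ (fun z => fderiv ℝ L (c • z)) y = c • fderiv ℝ (fderiv ℝ L) (c • y) :=
    fderiv_comp_smul _
  have h3 : fderiv ℝ (fun z => c • fderiv ℝ L z) y = c • fderiv ℝ (fderiv ℝ L) y :=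
    fderiv_fun_const_smul (diffAt1 hL hy) _
  rw [h1.fderiv_eq, h3] at h2
  exact (smul_right_injective _ hc.ne' h2).symm

theorem smul_der (y : V n) : HasDerivAt (fun c : ℝ => c • y) y 1 := by
  have h := (hasDerivAt_id (1 : ℝ)).smul_const y
  rw [one_smul] at h
  exact h

theorem euler1 (hL : IsML L) {y : V n} (hy : y ≠ 0) : fderiv ℝ L y y = 2 * L y := by
  have h0 : HasFDerivAt L (fderiv ℝ L y) ((1 : ℝ) • y) := by
    rw [one_smul]
    exact (diffAt hL hy).hasFDerivAt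
  have h1 : HasDerivAt (fun c : ℝ => L (c • y)) (fderiv ℝ L y y) 1 :=
    h0.comp_hasDerivAt (1 : ℝ) (smul_der y)
  have h2 : HasDerivAt (fun c : ℝ => c ^ 2 * L y) (2 * L y) 1 := by
    have h3 := (hasDerivAt_pow 2 (1 : ℝ)).mul_const (L y)
    have e : ((2 : ℕ) : ℝ) * (1 : ℝ) ^ (2 - 1) * L y = 2 * L y := by norm_num
    rw [e] at h3
    exact h3
  have h3 : (fun c : ℝ => L (c • y)) =ᶠ[𝓝 1] fun c : ℝ => c ^ 2 * L y := by
    filter_upwards [lt_mem_nhds (show (0 : ℝ) < 1 by norm_num)] with c hc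
    exact hL.homog y c hc
  exact h1.unique (h2.congr_of_eventuallyEq h3)

theorem euler2 (hL : IsML L) {y : V n} (hy : y ≠ 0) :
    fderiv ℝ (fderiv ℝ L) y y = fderiv ℝ L y := by
  have h0 : HasFDerivAt (fderiv ℝ L) (fderiv ℝ (fderiv ℝ L) y) ((1 : ℝ) • y) := by
    rw [one_smul]
    exact (diffAt1 hL hy).hasFDerivAt
  have h1 : HasDerivAt (fun c : ℝ => fderiv ℝ L (c • y)) (fderiv ℝ (fderiv ℝ L) y y) 1 :=
    h0.comp_hasDerivAt (1 : ℝ) (smul_der y)
  have h2 : HasDerivAt (fun c : ℝ => c • fderiv ℝ L y) (fderiv ℝ L y) 1 := by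
    have h3 := (hasDerivAt_id (1 : ℝ)).smul_const (fderiv ℝ L y)
    rw [one_smul] at h3
    exact h3
  have h3 : (fun c : ℝ => fderiv ℝ L (c • y)) =ᶠ[𝓝 1] fun c : ℝ => c • fderiv ℝ L y := by
    filter_upwards [lt_mem_nhds (show (0 : ℝ) < 1 by norm_num)] with c hc
    exact fd_homog hL hy hc
  exact h1.unique (h2.congr_of_eventuallyEq h3)

/-- EUL: Euler relations. -/
theorem pf_EUL : T_EUL := by
  intro n L hL y hy
  refine ⟨euler1 hL hy, ?_, ?_, ?_, ?_⟩
  · intro u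
    unfold d2 d1
    rw [euler2 hL hy]
  · intro u v
    have h := (cdAt hL hy).isSymmSndFDerivAt (by
      simp only [minSmoothness_of_isRCLikeNormedField]
      exact WithTop.coe_le_coe.2 (le_top : (2 : ℕ∞) ≤ ⊤))
    exact h.eq u v
  · have h1 := hL.pos y y hy hy
    unfold d2 at h1
    rw [euler2 hL hy, euler1 hL hy] at h1
    linarith
  · intro c hc
    refine ⟨?_, ?_, ?_⟩
    · intro u
      unfold d1
      rw [fd_homog hL hy hc]
      rfl
    · intro u v
      unfold d2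
      rw [fd2_homog hL hy hc]
    · unfold DD gm d2
      rw [fd2_homog hL hy hc]

end Pool.Agent.H14.FA
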