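import Pool.Agent.H14.FA.EUL

/-!
# Regularity of half the square of a Minkowski norm
-/

set_option autoImplicit false

open Matrix

namespace Pool.Agent.H14.FA

open Pool.Agent.H63.Fins Pool.Agent.H66.FA MeasureTheory Filter Topology

variable {n : ℕ} {L : V n → ℝ}

theorem sum_ee (u : V n) : u = ∑ i, u i • ee i := by
  funext j
  rw [Finset.sum_apply, Finset.sum_eq_single j]
  · simp [ee]
  · intro i _ hi
    simp [ee, Pi.single_apply, hi.symm]
  · intro h
    exact absurd (Finset.mem_univ _) h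

theorem d2_eq (L : V n → ℝ) (y u v : V n) : d2 L y u v = u ⬝ᵥ (gm L y *ᵥ v) := by
  have h1 : d2 L y u v = ∑ i, u i * ∑ j, v j * d2 L y (ee i) (ee j) := by
    unfold d2
    conv_lhs => rw [sum_ee u, map_sum]
    rw [ContinuousLinearMap.sum_apply]
    apply Finset.sum_congr rfl
    intro i _
    rw [map_smul, ContinuousLinearMap.smul_apply, smul_eq_mul]
    congr 1
    conv_lhs => rw [sum_ee v, map_sum]
    apply Finset.sum_congr rfl
    intro j _
    rw [map_smul, smul_eq_mul]
  rw [h1]
  unfold dotProduct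
  apply Finset.sum_congr rfl
  intro i _
  congr 1
  unfold Matrix.mulVec dotProduct
  apply Finset.sum_congr rfl
  intro j _
  exact mul_comm _ _

theorem continuous_L (hL : IsML L) : Continuous L := by
  rw [continuous_iff_continuousAt]
  intro y
  by_cases hy : y = 0
  · subst hy
    have hK : IsCompact (Metric.sphere (0 : V n) 1) := isCompact_sphere _ _
    have hc : ContinuousOn L (Metric.sphere (0 : V n) 1) := by
      intro z hz
      have hz0 : z ≠ 0 := by
        rintro rfl
        simp at hz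
      exact (diffAt hL hz0).continuousAt.continuousWithinAt
    obtain ⟨C, hC⟩ := hK.exists_bound_of_continuousOn hc
    have hb : ∀ z : V n, ‖L z‖ ≤ C * ‖z‖ ^ 2 := by
      intro z
      by_cases hz : z = 0
      · rw [hz, hL.zero]
        simp
      · have hn : 0 < ‖z‖ := norm_pos_iff.2 hz
        have e1 : z = ‖z‖ • (‖z‖⁻¹ • z) := by
          rw [smul_smul, mul_inv_cancel₀ hn.ne', one_smul]
        have e2 : L z = ‖z‖ ^ 2 * L (‖z‖⁻¹ • z) := by
          conv_lhs => rw [e1]
          exact hL.homog _ _ hn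
        have e3 : ‖z‖⁻¹ • z ∈ Metric.sphere (0 : V n) 1 := by
          rw [mem_sphere_zero_iff_norm, norm_smul, norm_inv, norm_norm, inv_mul_cancel₀ hn.ne']
        rw [e2, norm_mul, norm_pow, norm_norm, mul_comm]
        exact mul_le_mul_of_nonneg_right (hC _ e3) (by positivity)
    unfold ContinuousAt
    rw [hL.zero]
    apply squeeze_zero_norm hb
    have h1 : Tendsto (fun z : V n => C * ‖z‖ ^ 2) (𝓝 0) (𝓝 (C * ‖(0 : V n)‖ ^ 2)) := by
      apply Continuous.tendsto
      fun_prop
    simpa using h1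
  · exact (diffAt hL hy).continuousAt

theorem cd1 (hL : IsML L) : ContDiffOn ℝ (⊤ : ℕ∞) (fderiv ℝ L) {y | y ≠ 0} := fun _ hy =>
  (cdAt1 hL hy).contDiffWithinAt

theorem cd2 (hL : IsML L) : ContDiffOn ℝ (⊤ : ℕ∞) (fderiv ℝ (fderiv ℝ L)) {y | y ≠ 0} :=
  fun _ hy => ((cdAt1 hL hy).fderiv_right (by simp)).contDiffWithinAt

theorem cd_d1 (hL : IsML L) (u : V n) :
    ContDiffOn ℝ (⊤ : ℕ∞) (fun y => d1 L y u) {y | y ≠ 0} :=
  (cd1 hL).clm_apply contDiffOn_const

theorem cd_d2 (hL : IsML L) (u v : V n) :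
    ContDiffOn ℝ (⊤ : ℕ∞) (fun y => d2 L y u v) {y | y ≠ 0} :=
  ((cd2 hL).clm_apply contDiffOn_const).clm_apply contDiffOn_const

theorem cd_det {M : V n → Matrix (Fin n) (Fin n) ℝ} {s : Set (V n)}
    (h : ∀ i j, ContDiffOn ℝ (⊤ : ℕ∞) (fun y => M y i j) s) :
    ContDiffOn ℝ (⊤ : ℕ∞) (fun y => (M y).det) s := by
  simp only [Matrix.det_apply]
  apply ContDiffOn.sum
  intro σ _
  apply ContDiffOn.const_smul
  apply contDiffOn_prod
  intro i _
  exact h _ _

theorem cd_DD (hL : IsML L) : ContDiffOn ℝ (⊤ : ℕ∞) (DD L) {y | y ≠ 0} :=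
  cd_det fun i j => cd_d2 hL (ee i) (ee j)

/-- REG: regularity. -/
theorem pf_REG (h1 : T_EUL) : T_REG := by
  intro n L hL
  have hsymm : ∀ y : V n, y ≠ 0 → ∀ u v, d2 L y u v = d2 L y v u := fun y hy =>
    (h1 n L hL y hy).2.2.1
  have hpd : ∀ y : V n, y ≠ 0 → (gm L y).PosDef := by
    intro y hy
    apply Matrix.PosDef.of_dotProduct_mulVec_pos
    · ext i j
      exact hsymm y hy _ _
    · intro u hu
      rw [star_trivial, ← d2_eq]
      exact hL.pos y u hy hu
  have hDD : ∀ y : V n, y ≠ 0 → 0 < DD L y := fun y hy => (hpd y hy).det_pos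
  refine ⟨continuous_L hL, ?_, cd_d1 hL, cd_d2 hL, cd_DD hL, ?_, ?_⟩
  · unfold d1
    apply ContinuousOn.clm_apply
    · apply (cd1 hL).continuousOn.comp continuousOn_fst
      intro p hp
      exact hp
    · exact continuousOn_snd
  · intro i j
    have e1 : ∀ y ∈ {y : V n | y ≠ 0}, gi L i j y =
        (DD L y)⁻¹ * ((gm L y).updateRow j (Pi.single i 1)).det := by
      intro y _
      unfold gi
      rw [Matrix.inv_def, Matrix.smul_apply, Matrix.adjugate_apply, smul_eq_mul,
        Ring.inverse_eq_inv']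
      rfl
    refine ContDiffOn.congr ?_ e1
    apply ContDiffOn.mul
    · exact (cd_DD hL).inv fun y hy => (hDD y hy).ne'
    · apply cd_det
      intro a b
      by_cases ha : a = j
      · simp only [Matrix.updateRow_apply, ha, if_true]
        exact contDiffOn_const
      · simp only [Matrix.updateRow_apply, ha, if_false]
        exact cd_d2 hL _ _
  · intro y hy
    refine ⟨(diffAt hL hy).hasFDerivAt, ?_, hpd y hy, hDD y hy, fun u v => d2_eq L y u v⟩
    intro u ξ
    unfold d1 d2
    have h3 := ((diffAt1 hL hy).hasFDerivAt.clm_apply (hasFDerivAt_const u y)).fderiv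
    rw [h3]
    simp

end Pool.Agent.H14.FA
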